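import Mathlib
import Pool.Agent.Lib.MP_c091ab_al.Finite
import Pool.Agent.Lib.MP_c091ab_al.SerreSharp

universe u

open CategoryTheory IsLocalRing

namespace Pool.Agent.Results.MP_c091ab_al.BassInfinite

/-- The perfect closure `R^∞` (the direct limit of `R → R → ⋯` along Frobenius), as an
`R`-module through the canonical map from the first copy of `R`. -/
noncomputable def perfClosureModule (R : Type u) [CommRing R] (p : ℕ) [Fact p.Prime]
    [CharP R p] : ModuleCat.{u} R :=
  (ModuleCat.restrictScalars (PerfectClosure.of R p)).obj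
    (ModuleCat.of (PerfectClosure R p) (PerfectClosure R p))

open Pool.Agent.Lib.MP_c091ab_al in
theorem result (p : ℕ) [Fact p.Prime] (R : Type u) [CommRing R] [IsLocalRing R]
    [IsNoetherianRing R] [CharP R p] (d : ℕ) (hd : ringKrullDim R = d) (i : ℕ) (hi : d ≤ i)
    (h : Module.Finite R
      (Abelian.Ext.{u} (ModuleCat.of R (R ⧸ maximalIdeal R)) (perfClosureModule R p) i)) :
    (IsRegularLocalRing R ∧ d < i) ∨
      (d = 0 ∧ PerfectField (ResidueField R) ∧
        ∃ ξ : Abelian.Ext.{u} (ModuleCat.of R (R ⧸ maximalIdeal R)) (perfClosureModule R p) i,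
          ξ ≠ 0) := by
  have hp : p.Prime := Fact.out
  let _ : Algebra R (PerfectClosure R p) := (PerfectClosure.of R p).toAlgebra
  have hfin : Module.Finite R (E R (R ⧸ maximalIdeal R) (PerfectClosure R p) i) := h
  have hperf : Perf p (PerfectClosure R p) :=
    ⟨CharP.cast_eq_zero _ p, inferInstance, fun s => (PerfectRing.bijective_frobenius (p := p)).2 s⟩
  have hpi : ∀ s : PerfectClosure R p, ∃ (e : ℕ) (r : R),
      algebraMap R (PerfectClosure R p) r = s ^ p ^ e :=
    IsPRadical.pow_mem (PerfectClosure.of R p) p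
  have hint : Algebra.IsIntegral R (PerfectClosure R p) := ⟨fun s => by
    obtain ⟨e, r, hr⟩ := hpi s
    exact IsIntegral.of_pow (pow_pos hp.pos e) (hr ▸ isIntegral_algebraMap)⟩
  have hker : ∀ r : R, algebraMap R (PerfectClosure R p) r = 0 → IsNilpotent r := by
    intro r hr
    obtain ⟨n, hn⟩ := mem_pNilradical.mp (IsPRadical.ker_le (PerfectClosure.of R p) p hr)
    exact ⟨_, hn⟩
  have hk : CharP (ResidueField R) p := (CharP.charP_iff_prime_eq_zero hp).mpr (by
    rw [← map_natCast (residue R), CharP.cast_eq_zero, map_zero])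
  rcases Nat.eq_zero_or_pos d with rfl | hd1
  · by_cases hz : ∀ ξ : E R (R ⧸ maximalIdeal R) (PerfectClosure R p) i, ξ = 0
    · have hnil : ∀ a ∈ maximalIdeal R, IsNilpotent a := by
        have h0 : Ring.KrullDimLE 0 R := Ring.krullDimLE_iff.mpr hd.le
        intro a ha
        exact (Ring.KrullDimLE.isNilpotent_iff_mem_maximalIdeal).mpr ha
      obtain ⟨Q, -, hQ, -⟩ := Ideal.exists_ideal_over_prime_of_isIntegral (maximalIdeal R)
        (⊥ : Ideal (PerfectClosure R p)) (fun r hr =>
          (mem_maximalIdeal r).mpr (fun hu => (hker r (by simpa using hr)).not_isUnit hu))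
      have hres := Perf.vanish_residue (R := R) hp i 0 (PerfectClosure R p) hperf [] rfl
        (by
          intro htop
          apply hQ.ne_top
          rw [eq_top_iff, ← htop]
          simp)
        (fun a ha => by
          obtain ⟨n, hn⟩ := hnil a ha
          exact ⟨n, by rw [← map_pow, hn, map_zero]; exact Ideal.zero_mem _⟩)
        (rigidity 0 hd.le i hi hz)
      exact Or.inl (serre_sharp 0 R hd i (pd_of_ext_residue i _ hres))
    · push Not at hz
      obtain ⟨ξ, hξ⟩ := hz
      refine Or.inr ⟨rfl, ?_, ξ, hξ⟩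
      have : PerfectRing (ResidueField R) p := PerfectRing.ofSurjective _ p (fun y => by
        obtain ⟨a, rfl⟩ := residue_surjective y
        obtain ⟨b, hb⟩ := hperf.perfect_of_finite hp hpi ξ hξ a
        refine ⟨residue R b, ?_⟩
        rw [frobenius_def, ← map_pow, eq_comm, ← sub_eq_zero, ← map_sub, residue_eq_zero_iff]
        exact hb)
      exact PerfectRing.toPerfectField _ p
  · exact Or.inl (serre_sharp d R hd i (pd_of_ext_residue i _
      (hperf.residue_of_finite hp hker d hd hd1 i hi)))

end Pool.Agent.Results.MP_c091ab_al.BassInfinite
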