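import Mathlib
import Pool.Agent.Lib.MP_c091ab_al.Gap8
import Pool.Agent.Lib.MP_c091ab_al.Serre

universe u

open CategoryTheory IsLocalRing

namespace Pool.Agent.Results.MP_c091ab_al.NoGap

open Pool.Agent.Lib.MP_c091ab_al in
theorem result (p : ℕ) [Fact p.Prime] (R : Type u) [CommRing R] [IsLocalRing R]
    [IsNoetherianRing R] [CharP R p] (d : ℕ) (hd : ringKrullDim R = d)
    (M : ModuleCat.{u} (PerfectClosure R p))
    (hM : maximalIdeal R •
      (⊤ : Submodule R ((ModuleCat.restrictScalars (PerfectClosure.of R p)).obj M)) ≠ ⊤)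
    (i : ℕ)
    (h : ∀ ξ : Abelian.Ext.{u} (ModuleCat.of R (R ⧸ maximalIdeal R))
      ((ModuleCat.restrictScalars (PerfectClosure.of R p)).obj M) i, ξ = 0) :
    IsRegularLocalRing R ∨
      (i < d ∧ ∀ j ≤ i, ∀ ξ : Abelian.Ext.{u} (ModuleCat.of R (R ⧸ maximalIdeal R))
        ((ModuleCat.restrictScalars (PerfectClosure.of R p)).obj M) j, ξ = 0) := by
  let _ : Module R M := Module.compHom M (PerfectClosure.of R p)
  have h' : ∀ ξ : E R (R ⧸ maximalIdeal R) M i, ξ = 0 := h
  by_cases hlow : ∀ j ≤ i, ∀ ξ : E R (R ⧸ maximalIdeal R) M j, ξ = 0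
  · refine Or.inr ⟨?_, hlow⟩
    by_contra hi
    refine hM (smul_top_of_ext (R := R) M fun j => ?_)
    rcases le_total j i with hj | hj
    · exact hlow j hj
    · exact rigidity d hd.le i (by omega) h' j hj
  · push Not at hlow
    obtain ⟨j, hj, ξ, hξ⟩ := hlow
    have hji : j < i := lt_of_le_of_ne hj (by rintro rfl; exact hξ (h' ξ))
    obtain ⟨a, ha⟩ := gap_perfect p (PerfectClosure.of R p) M (fun _ _ => rfl) j i hji ⟨ξ, hξ⟩ h'
    exact Or.inl (serre d R hd a (pd_of_ext_residue a _ ha))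

end Pool.Agent.Results.MP_c091ab_al.NoGap
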